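import Pool.Agent.H.MP_ad3614_gt.Main

namespace Pool.Agent.Results.MP_ad3614_gt.No
open MeasureTheory
open scoped Pointwise

/-- origin-symmetric convex body -/
def IsBody {n : ℕ} (K : Set (EuclideanSpace ℝ (Fin n))) : Prop :=
  IsCompact K ∧ Convex ℝ K ∧ (interior K).Nonempty ∧ K = -K

/-- m-dimensional volume of the section of K by F -/
noncomputable def secVol {n : ℕ} (m : ℕ) (K : Set (EuclideanSpace ℝ (Fin n)))
    (F : Submodule ℝ (EuclideanSpace ℝ (Fin n))) : ℝ :=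
  (Measure.euclideanHausdorffMeasure m (K ∩ (F : Set (EuclideanSpace ℝ (Fin n))))).toReal

theorem result (C : ℝ) : ∃ n k : ℕ, 1 ≤ k ∧ k < n ∧
    ∃ K L : Set (EuclideanSpace ℝ (Fin n)), IsBody K ∧ IsBody L ∧ L ⊆ K ∧
      ∃ M : ℝ, (∀ F : Submodule ℝ (EuclideanSpace ℝ (Fin n)), Module.finrank ℝ F = n - k →
          secVol (n - k) K F - secVol (n - k) L F ≤ M) ∧
        C ^ k * M < (volume K).toReal ^ (((n : ℝ) - k) / n) -
          (volume L).toReal ^ (((n : ℝ) - k) / n) := by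
  obtain ⟨n, hn, K, L, hK, hL, hLK, M, h1, h2⟩ := Pool.Agent.H.MP_ad3614_gt.main C
  refine ⟨n, 1, le_rfl, hn, K, L, hK, hL, hLK, M, h1, ?_⟩
  rw [pow_one, Nat.cast_one]
  exact h2

end Pool.Agent.Results.MP_ad3614_gt.No
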